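import Pool.Agent.H43.DPC.Targets

/-! Row UNQ: uniqueness of the invariant homogeneous two-point form. -/

open MeasureTheory SchwartzMap Filter Topology
open scoped ENNReal ContDiff

namespace Pool.Agent.H43.DPC

noncomputable section

theorem UNQ_cont {d : ℕ} (φ : S d →ₗ[ℝ] ℝ) (C : ℝ) (m : ℕ) (hC : 0 ≤ C)
    (h : ∀ g, |φ g| ≤ C * pm m g) : Continuous φ := by
  refine WithSeminorms.continuous_normedSpace_rng ℝ (schwartz_withSeminorms ℝ (V d) ℝ) φ
    ⟨Finset.Iic (m, m), ⟨C, hC⟩, ?_⟩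
  intro g
  exact h g

theorem UNQ_pm_nonneg {d : ℕ} (m : ℕ) (f : S d) : 0 ≤ pm m f := apply_nonneg _ _

theorem UNQ_exR {d : ℕ} {a : ℝ} {B : S d →ₗ[ℝ] S d →ₗ[ℝ] ℝ} (hB : TPF d a B) (f : S d) :
    ∃ L : S d →L[ℝ] ℝ, ∀ g, L g = B f g := by
  obtain ⟨C, m, hC, hb⟩ := hB.bound
  exact ⟨⟨B f, UNQ_cont (B f) (C * pm m f) m (mul_nonneg hC (UNQ_pm_nonneg m f)) (hb f)⟩,
    fun g => rfl⟩

theorem UNQ_exL {d : ℕ} {a : ℝ} {B : S d →ₗ[ℝ] S d →ₗ[ℝ] ℝ} (hB : TPF d a B) (g : S d) :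
    ∃ L : S d →L[ℝ] ℝ, ∀ f, L f = B f g := by
  obtain ⟨C, m, hC, hb⟩ := hB.bound
  refine ⟨⟨B.flip g, UNQ_cont (B.flip g) (C * pm m g) m (mul_nonneg hC (UNQ_pm_nonneg m g))
    (fun f => ?_)⟩, fun f => rfl⟩
  have := hb f g
  rw [LinearMap.flip_apply]
  calc |B f g| ≤ C * pm m f * pm m g := this
    _ = C * pm m g * pm m f := by ring

theorem UNQ_trans_apply {d : ℕ} (h : V d) (f : S d) (x : V d) : trans h f x = f (x - h) := rfl

theorem UNQ_rot_apply {d : ℕ} (R : V d ≃ₗᵢ[ℝ] V d) (f : S d) (x : V d) : rot R f x = f (R x) :=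
  rfl

theorem UNQ_dil_apply {d : ℕ} (t : ℝˣ) (f : S d) (x : V d) :
    dil t f x = f (((t : ℝ)⁻¹) • x) := by
  unfold dil
  rw [compCLMOfContinuousLinearEquiv_apply]
  simp only [Function.comp]
  congr 1
  rw [ContinuousLinearEquiv.smulLeft_apply_apply, Units.smul_def, Units.val_inv_eq_inv_val]

theorem UNQ_trans_zero {d : ℕ} (f : S d) : trans 0 f = f := by
  ext x; rw [UNQ_trans_apply, sub_zero]

theorem UNQ_trans_trans {d : ℕ} (h k : V d) (f : S d) : trans h (trans k f) = trans (k + h) f := by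
  ext x; rw [UNQ_trans_apply, UNQ_trans_apply, UNQ_trans_apply]; congr 1; abel

theorem UNQ_gau_neg {d : ℕ} (t : ℝ) (x : V d) : gau d t (-x) = gau d t x := by
  unfold gau; rw [norm_neg]

theorem UNQ_gau_scale {d : ℕ} (u s : ℝ) (hu : 0 < u) (hs : 0 < s) (x : V d) :
    gau d s (u⁻¹ • x) = u ^ d * gau d (u ^ 2 * s) x := by
  unfold gau
  have h1 : (2 * Real.pi * (u ^ 2 * s)) ^ (-(d : ℝ) / 2) =
      (u ^ d)⁻¹ * (2 * Real.pi * s) ^ (-(d : ℝ) / 2) := by
    have : 2 * Real.pi * (u ^ 2 * s) = u ^ 2 * (2 * Real.pi * s) := by ring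
    rw [this, Real.mul_rpow (by positivity) (by positivity)]
    congr 1
    rw [← Real.rpow_natCast u 2, ← Real.rpow_mul hu.le, ← Real.rpow_natCast u d,
      ← Real.rpow_neg hu.le]
    congr 1
    push_cast; ring
  have h2 : ‖u⁻¹ • x‖ ^ 2 / (2 * s) = ‖x‖ ^ 2 / (2 * (u ^ 2 * s)) := by
    rw [norm_smul, norm_inv, Real.norm_of_nonneg hu.le]
    field_simp
  rw [h1, h2]
  have : u ^ d ≠ 0 := by positivity
  field_simp

/-- the abstract situation: heat kernels as Schwartz functions -/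
structure UNQ_G (d : ℕ) (G : ℝ → S d) : Prop where
  eq : ∀ t, 0 < t → ∀ x, G t x = gau d t x

theorem UNQ_A {d : ℕ} {a : ℝ} {B : S d →ₗ[ℝ] S d →ₗ[ℝ] ℝ} (hB : TPF d a B) (hGAU : T_GAU)
    (hINT : T_INT) {G : ℝ → S d} (hG : UNQ_G d G) (s r : ℝ) (hs : 0 < s) (hr : 0 < r)
    (g : S d) (x : V d) :
    Continuous (fun y => B (trans (x + y) (G s)) g) ∧
    (∃ (C : ℝ) (m : ℕ), ∀ y, |B (trans (x + y) (G s)) g| ≤ C * (1 + ‖y‖) ^ m) ∧
    Integrable (fun y => gau d r y * B (trans (x + y) (G s)) g) ∧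
    B (trans x (G (s + r))) g = ∫ y, gau d r y * B (trans (x + y) (G s)) g := by
  obtain ⟨L, hL⟩ := UNQ_exL hB g
  have key := hINT d L (G r) (trans x (G s)) (trans x (G (s + r))) (by
    intro z
    rw [UNQ_trans_apply, hG.eq (s + r) (by linarith)]
    have := hGAU.semigroup d r s hr hs (z - x)
    rw [add_comm s r, ← this]
    refine integral_congr_ae (Eventually.of_forall fun y => ?_)
    simp only [UNQ_trans_apply]
    rw [hG.eq r hr, hG.eq s hs]
    congr 2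
    abel)
  simp only [UNQ_trans_trans, hL, hG.eq r hr] at key
  exact key

theorem UNQ_B {d : ℕ} {a : ℝ} {B : S d →ₗ[ℝ] S d →ₗ[ℝ] ℝ} (hB : TPF d a B) (hGAU : T_GAU)
    (hINT : T_INT) {G : ℝ → S d} (hG : UNQ_G d G) (s t r : ℝ) (ht : 0 < t)
    (hr : 0 < r) (x : V d) :
    B (trans x (G s)) (G (t + r)) = ∫ y, gau d r y * B (trans (x + y) (G s)) (G t) := by
  obtain ⟨L, hL⟩ := UNQ_exR hB (trans x (G s))
  have key := hINT d L (G r) (G t) (G (t + r)) (by
    intro z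
    rw [hG.eq (t + r) (by linarith)]
    have := hGAU.semigroup d r t hr ht z
    rw [add_comm t r, ← this]
    refine integral_congr_ae (Eventually.of_forall fun y => ?_)
    simp only
    rw [hG.eq r hr, hG.eq t ht])
  have h := key.2.2.2
  rw [hL] at h
  rw [h, ← integral_neg_eq_self]
  refine integral_congr_ae (Eventually.of_forall fun y => ?_)
  simp only
  rw [hL, hG.eq r hr, UNQ_gau_neg]
  congr 1
  rw [← hB.trans y, UNQ_trans_trans, UNQ_trans_trans, neg_add_cancel, UNQ_trans_zero]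

theorem UNQ_C {d : ℕ} {a : ℝ} {B : S d →ₗ[ℝ] S d →ₗ[ℝ] ℝ} (hB : TPF d a B) (hGAU : T_GAU)
    (hINT : T_INT) {G : ℝ → S d} (hG : UNQ_G d G) (s t r : ℝ) (hs : 0 < s) (ht : 0 < t)
    (hr : 0 < r) (x : V d) :
    B (trans x (G (s + r))) (G t) = B (trans x (G s)) (G (t + r)) := by
  rw [UNQ_B hB hGAU hINT hG s t r ht hr x, (UNQ_A hB hGAU hINT hG s r hs hr (G t) x).2.2.2]

theorem UNQ_E {d : ℕ} {a : ℝ} {B : S d →ₗ[ℝ] S d →ₗ[ℝ] ℝ} (hB : TPF d a B)
    {G : ℝ → S d} (hG : UNQ_G d G) (u : ℝ) (hu : 0 < u) (s : ℝ) (hs : 0 < s) (x : V d) :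
    B (trans (u • x) (G (u ^ 2 * s))) (G (u ^ 2 * s)) =
      (u ^ (-a)) ^ 2 * B (trans x (G s)) (G s) := by
  have hdG : dil (Units.mk0 u hu.ne') (G s) = (u ^ d) • G (u ^ 2 * s) := by
    ext z
    rw [UNQ_dil_apply, Units.val_mk0, hG.eq s hs, UNQ_gau_scale u s hu hs, smul_apply,
      hG.eq _ (by positivity), smul_eq_mul]
  have hdT : dil (Units.mk0 u hu.ne') (trans x (G s)) =
      (u ^ d) • trans (u • x) (G (u ^ 2 * s)) := by
    rw [← map_smul, ← hdG]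
    ext z
    rw [UNQ_dil_apply, UNQ_trans_apply, UNQ_trans_apply, UNQ_dil_apply, Units.val_mk0]
    congr 1
    rw [smul_sub, smul_smul, inv_mul_cancel₀ hu.ne', one_smul]
  have h := hB.dil (Units.mk0 u hu.ne') (trans x (G s)) (G s) (by rwa [Units.val_mk0])
  rw [hdG, hdT, Units.val_mk0, map_smul, map_smul, LinearMap.smul_apply, smul_eq_mul,
    smul_eq_mul, Real.rpow_sub hu, Real.rpow_natCast] at h
  rw [Real.rpow_neg hu.le]
  have h1 : u ^ d ≠ 0 := by positivity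
  have h2 : u ^ a ≠ 0 := by positivity
  field_simp at h ⊢
  linear_combination h

theorem UNQ_main1 (hGAU : T_GAU) (hINT : T_INT) (hRAD : T_RAD) {d : ℕ} (hd : 1 ≤ d) {a : ℝ}
    {B B' : S d →ₗ[ℝ] S d →ₗ[ℝ] ℝ} (hB : TPF d a B) (hB' : TPF d a B') {G : ℝ → S d}
    (hG : UNQ_G d G) (h0 : B' (G 1) (G 1) ≠ 0) :
    ∃ c : ℝ, ∀ y, B (trans y (G 1)) (G 1) = c * B' (trans y (G 1)) (G 1) := by
  obtain ⟨c, hc⟩ : ∃ c : ℝ, B (G 1) (G 1) = c * B' (G 1) (G 1) :=
    ⟨B (G 1) (G 1) / B' (G 1) (G 1), by field_simp⟩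
  refine ⟨c, fun y => ?_⟩
  have hA := fun r (hr : 0 < r) => UNQ_A hB hGAU hINT hG 1 r one_pos hr (G 1) 0
  have hA' := fun r (hr : 0 < r) => UNQ_A hB' hGAU hINT hG 1 r one_pos hr (G 1) 0
  simp only [zero_add, UNQ_trans_zero] at hA hA'
  have hrad := hRAD d hd (fun y => B (trans y (G 1)) (G 1) - c * B' (trans y (G 1)) (G 1))
    ((hA 1 one_pos).1.sub (continuous_const.mul (hA' 1 one_pos).1)) ?_ ?_ ?_ y
  · linarith
  · obtain ⟨C, m, h1⟩ := (hA 1 one_pos).2.1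
    obtain ⟨C', m', h2⟩ := (hA' 1 one_pos).2.1
    refine ⟨|C| + |c| * |C'|, m + m', fun x => ?_⟩
    have hx : (1 : ℝ) ≤ 1 + ‖x‖ := by linarith [norm_nonneg x]
    have e1 : |B (trans x (G 1)) (G 1)| ≤ |C| * (1 + ‖x‖) ^ (m + m') := by
      refine (h1 x).trans ?_
      refine (mul_le_mul_of_nonneg_right (le_abs_self C) (by positivity)).trans ?_
      exact mul_le_mul_of_nonneg_left (pow_le_pow_right₀ hx (by omega)) (abs_nonneg _)
    have e2 : |B' (trans x (G 1)) (G 1)| ≤ |C'| * (1 + ‖x‖) ^ (m + m') := by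
      refine (h2 x).trans ?_
      refine (mul_le_mul_of_nonneg_right (le_abs_self C') (by positivity)).trans ?_
      exact mul_le_mul_of_nonneg_left (pow_le_pow_right₀ hx (by omega)) (abs_nonneg _)
    calc |B (trans x (G 1)) (G 1) - c * B' (trans x (G 1)) (G 1)|
        ≤ |B (trans x (G 1)) (G 1)| + |c * B' (trans x (G 1)) (G 1)| := abs_sub _ _
      _ ≤ |C| * (1 + ‖x‖) ^ (m + m') + |c| * (|C'| * (1 + ‖x‖) ^ (m + m')) := by
          rw [abs_mul]
          exact add_le_add e1 (mul_le_mul_of_nonneg_left e2 (abs_nonneg _))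
      _ = _ := by ring
  · intro x z hxz
    have hrotG : ∀ R : V d ≃ₗᵢ[ℝ] V d, rot R (G 1) = G 1 := by
      intro R
      ext w
      rw [UNQ_rot_apply, hG.eq 1 one_pos, hG.eq 1 one_pos]
      unfold gau
      rw [R.norm_map]
    have hrotT : ∀ (R : V d ≃ₗᵢ[ℝ] V d) (v : V d),
        rot R (trans (R v) (G 1)) = trans v (G 1) := by
      intro R v
      ext w
      rw [UNQ_rot_apply, UNQ_trans_apply, UNQ_trans_apply, ← map_sub]
      have := congrArg (fun F : S d => F (w - v)) (hrotG R)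
      simpa only [UNQ_rot_apply] using this
    obtain ⟨R, hR⟩ : ∃ R : V d ≃ₗᵢ[ℝ] V d, R x = z :=
      ⟨(ℝ ∙ (x - z))ᗮ.reflection, Submodule.reflection_sub hxz⟩
    have e : ∀ {B0 : S d →ₗ[ℝ] S d →ₗ[ℝ] ℝ}, TPF d a B0 →
        B0 (trans x (G 1)) (G 1) = B0 (trans z (G 1)) (G 1) := by
      intro B0 hB0
      rw [← hB0.rot R (trans z (G 1)) (G 1), hrotG, ← hR, hrotT]
    rw [e hB, e hB']
  · intro σ hσ
    set r : ℝ := 1 / (2 * σ) with hrdef
    have hr : 0 < r := by positivity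
    have hk : ∀ {B0 : S d →ₗ[ℝ] S d →ₗ[ℝ] ℝ}, TPF d a B0 →
        B0 (G (1 + r)) (G 1) = (Real.sqrt (1 + r / 2) ^ (-a)) ^ 2 * B0 (G 1) (G 1) := by
      intro B0 hB0
      have h1 := UNQ_C hB0 hGAU hINT hG (1 + r / 2) 1 (r / 2) (by positivity) one_pos
        (by positivity) 0
      rw [UNQ_trans_zero, UNQ_trans_zero] at h1
      have h2 := UNQ_E hB0 hG (Real.sqrt (1 + r / 2)) (by positivity) 1 one_pos 0
      rw [smul_zero, UNQ_trans_zero, UNQ_trans_zero, Real.sq_sqrt (by positivity), mul_one] at h2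
      rw [← h2, ← h1]
      congr 3
      ring
    have e1 := hk hB
    have e2 := hk hB'
    have i1 := hA r hr
    have i2 := hA' r hr
    have hint : ∫ y, gau d r y * (B (trans y (G 1)) (G 1) - c * B' (trans y (G 1)) (G 1)) = 0 := by
      have : ∀ y, gau d r y * (B (trans y (G 1)) (G 1) - c * B' (trans y (G 1)) (G 1)) =
          gau d r y * B (trans y (G 1)) (G 1) - c * (gau d r y * B' (trans y (G 1)) (G 1)) := by
        intro y; ring
      simp only [this]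
      rw [integral_sub i1.2.2.1 (i2.2.2.1.const_mul c), integral_const_mul, ← i1.2.2.2,
        ← i2.2.2.2, e1, e2, hc]
      ring
    have hgau : ∀ y : V d, Real.exp (-(σ * ‖y‖ ^ 2)) =
        ((2 * Real.pi * r) ^ (-(d : ℝ) / 2))⁻¹ * gau d r y := by
      intro y
      unfold gau
      have h3 : (2 * Real.pi * r) ^ (-(d : ℝ) / 2) ≠ 0 := by positivity
      rw [← mul_assoc, inv_mul_cancel₀ h3, one_mul]
      congr 2
      rw [hrdef]
      field_simp
    have : ∀ y : V d, (B (trans y (G 1)) (G 1) - c * B' (trans y (G 1)) (G 1)) *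
        Real.exp (-(σ * ‖y‖ ^ 2)) = ((2 * Real.pi * r) ^ (-(d : ℝ) / 2))⁻¹ *
        (gau d r y * (B (trans y (G 1)) (G 1) - c * B' (trans y (G 1)) (G 1))) := by
      intro y
      rw [hgau y]; ring
    simp only [this]
    rw [integral_const_mul, hint, mul_zero]

theorem UNQ_main2 (hGAU : T_GAU) (hINT : T_INT) (hRAD : T_RAD) {d : ℕ} (hd : 1 ≤ d) {a : ℝ}
    {B B' : S d →ₗ[ℝ] S d →ₗ[ℝ] ℝ} (hB : TPF d a B) (hB' : TPF d a B') {G : ℝ → S d}
    (hG : UNQ_G d G) (h0 : B' (G 1) (G 1) ≠ 0) :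
    ∃ c : ℝ, ∀ t, 0 < t → ∀ y z, B (trans y (G t)) (trans z (G t)) =
      c * B' (trans y (G t)) (trans z (G t)) := by
  obtain ⟨c, hc⟩ := UNQ_main1 hGAU hINT hRAD hd hB hB' hG h0
  refine ⟨c, fun t ht y z => ?_⟩
  have hk : ∀ {B0 : S d →ₗ[ℝ] S d →ₗ[ℝ] ℝ}, TPF d a B0 →
      B0 (trans y (G t)) (trans z (G t)) = (Real.sqrt t ^ (-a)) ^ 2 *
        B0 (trans ((Real.sqrt t)⁻¹ • (y - z)) (G 1)) (G 1) := by
    intro B0 hB0
    have h1 := UNQ_E hB0 hG (Real.sqrt t) (by positivity) 1 one_pos ((Real.sqrt t)⁻¹ • (y - z))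
    have h2 : Real.sqrt t ≠ 0 := by positivity
    rw [smul_smul, mul_inv_cancel₀ h2, one_smul, Real.sq_sqrt ht.le, mul_one] at h1
    rw [← h1, ← hB0.trans (-z), UNQ_trans_trans, UNQ_trans_trans, add_neg_cancel,
      UNQ_trans_zero, sub_eq_add_neg]
  rw [hk hB, hk hB', hc]
  ring

theorem UNQ_pm_tendsto {d : ℕ} (m : ℕ) {F : ℝ → S d} {f : S d}
    (hF : Tendsto F (𝓝[>] 0) (𝓝 f)) : Tendsto (fun t => pm m (F t - f)) (𝓝[>] 0) (𝓝 0) := by
  have h := ((schwartz_withSeminorms ℝ (V d) ℝ).tendsto_nhds' F f).1 hF (Finset.Iic (m, m))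
  rw [Metric.tendsto_nhds]
  intro ε hε
  filter_upwards [h ε hε] with t ht
  rw [Real.dist_eq, sub_zero, abs_of_nonneg (UNQ_pm_nonneg m _)]
  exact ht

theorem UNQ_lim {d : ℕ} {a : ℝ} {B : S d →ₗ[ℝ] S d →ₗ[ℝ] ℝ} (hB : TPF d a B)
    {F F' : ℝ → S d} {f f' : S d} (hF : Tendsto F (𝓝[>] 0) (𝓝 f))
    (hF' : Tendsto F' (𝓝[>] 0) (𝓝 f')) :
    Tendsto (fun t => B (F t) (F' t)) (𝓝[>] 0) (𝓝 (B f f')) := by
  obtain ⟨C, m, hC, hb⟩ := hB.bound
  have h1 := UNQ_pm_tendsto m hF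
  have h2 := UNQ_pm_tendsto m hF'
  rw [tendsto_iff_norm_sub_tendsto_zero]
  have hlim : Tendsto (fun t => C * pm m (F t - f) * pm m (F' t - f') +
      C * pm m f * pm m (F' t - f') + C * pm m (F t - f) * pm m f') (𝓝[>] 0)
      (𝓝 (C * 0 * 0 + C * pm m f * 0 + C * 0 * pm m f')) :=
    (((h1.const_mul C).mul h2).add (h2.const_mul (C * pm m f))).add
      ((h1.const_mul C).mul_const _)
  have hz : C * 0 * 0 + C * pm m f * 0 + C * 0 * pm m f' = 0 := by ring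
  rw [hz] at hlim
  refine squeeze_zero (fun t => norm_nonneg _) (fun t => ?_) hlim
  have : B (F t) (F' t) - B f f' =
      B (F t - f) (F' t - f') + B f (F' t - f') + B (F t - f) f' := by
    simp only [map_sub, LinearMap.sub_apply]; ring
  rw [this, Real.norm_eq_abs]
  exact (abs_add_three _ _ _).trans (add_le_add (add_le_add (hb _ _) (hb _ _)) (hb _ _))

/-- UNQ: uniqueness of the invariant homogeneous two-point form. -/
theorem UNQ (hGAU : T_GAU) (hCON : T_CON) (hINT : T_INT) (hAPX : T_APX) (hRAD : T_RAD) :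
    T_UNQ := by
  intro d hd a B B' hB hB' g hg h0
  have hex : ∀ t : ℝ, ∃ G : S d, 0 < t → ∀ x, G x = gau d t x := by
    intro t
    by_cases ht : 0 < t
    · obtain ⟨G, hG⟩ := hGAU.exists_S d t ht
      exact ⟨G, fun _ => hG⟩
    · exact ⟨0, fun h => absurd h ht⟩
  choose G hG' using hex
  have hG : UNQ_G d G := ⟨hG'⟩
  have hgG : g = G 1 := by
    ext x; rw [hg, hG.eq 1 one_pos]
  rw [hgG] at h0
  obtain ⟨c, hc⟩ := UNQ_main2 hGAU hINT hRAD hd hB hB' hG h0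
  refine ⟨c, fun f f' => ?_⟩
  choose F hF using fun t : ℝ => hCON d f (G t)
  choose F' hF' using fun t : ℝ => hCON d f' (G t)
  have hlimF : Tendsto F (𝓝[>] 0) (𝓝 f) := hAPX d f F (by
    intro t ht x
    rw [hF]
    simp only [hG.eq t ht])
  have hlimF' : Tendsto F' (𝓝[>] 0) (𝓝 f') := hAPX d f' F' (by
    intro t ht x
    rw [hF']
    simp only [hG.eq t ht])
  have key : ∀ {B0 : S d →ₗ[ℝ] S d →ₗ[ℝ] ℝ}, TPF d a B0 → ∀ t,
      B0 (F t) (F' t) = ∫ y, f y * ∫ z, f' z * B0 (trans y (G t)) (trans z (G t)) := by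
    intro B0 hB0 t
    obtain ⟨L, hL⟩ := UNQ_exL hB0 (F' t)
    have h1 := (hINT d L f (G t) (F t) (hF t)).2.2.2
    rw [hL] at h1
    rw [h1]
    refine integral_congr_ae (Eventually.of_forall fun y => ?_)
    simp only
    congr 1
    obtain ⟨L', hL'⟩ := UNQ_exR hB0 (trans y (G t))
    have h2 := (hINT d L' f' (G t) (F' t) (hF' t)).2.2.2
    rw [hL, ← hL', h2]
    simp only [hL']
  have hEq : ∀ t, 0 < t → B (F t) (F' t) = c * B' (F t) (F' t) := by
    intro t ht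
    rw [key hB, key hB', ← integral_const_mul]
    refine integral_congr_ae (Eventually.of_forall fun y => ?_)
    simp only
    have : ∀ z, f' z * B (trans y (G t)) (trans z (G t)) =
        c * (f' z * B' (trans y (G t)) (trans z (G t))) := by
      intro z
      rw [hc t ht y z]; ring
    simp only [this]
    rw [integral_const_mul]
    ring
  have l1 := UNQ_lim hB hlimF hlimF'
  have l2 := (UNQ_lim hB' hlimF hlimF').const_mul c
  refine tendsto_nhds_unique l1 (l2.congr' ?_)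
  filter_upwards [self_mem_nhdsWithin] with t ht
  exact (hEq t ht).symm

end

end Pool.Agent.H43.DPC
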